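import Pool.Agent.T3.Final4
import Pool.Agent.T3.COEF

/-!
Finite type invariants with values in any given nontrivial abelian group separate closed 3-braids
up to the orientation of the knot.
-/

namespace Pool.Agent.HFW.Kept.SeparateThreeBraids

open Pool.Agent.LibH11 Pool.Agent.T3

/-- Let `A` be a nontrivial abelian group. If the closures of two braids `b`, `b'` on three strands
are knots and every finite type invariant with values in `A` takes the same value on them, then the
two knots are equal, or the second is the first with the reversed orientation. -/
theorem result (A : Type*) [AddCommGroup A] [Nontrivial A] (b b' : Br 2)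
    (h : IsKnot b) (h' : IsKnot b')
    (hv : ∀ v : Knot → A, IsFiniteType v → v (closure b h) = v (closure b' h')) :
    closure b h = closure b' h' ∨ ∃ hr : IsKnot (rev b), closure (rev b) hr = closure b' h' :=
  fin_all4 b b' h h' (agree_of_agree A hv)

end Pool.Agent.HFW.Kept.SeparateThreeBraids
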